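import Mathlib
import Pool.Agent.Q68.LD.Main

/-!
# MP_894476_an, Q1 (positive answer)

The Lebesgue differentiation property of `μ` implies the ergodic Lebesgue differentiation theorem
for every `μ`-preserving map and every `f ∈ L^p`, `p > 1` (and, more generally, for every integrable
`f` whose ergodic maximal function is integrable, for instance `f ∈ L log L`).

Idea: the functions `G_K = sup_{k ≥ K} |A_k f - f*|` are integrable and tend to `0` almost
everywhere; `|U_{r,k} f - U_r f*| ≤ U_r G_K` for `k ≥ K`, and the Lebesgue differentiation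
property is applied to `f*` and to each `G_K`.

The definitions `ballAvg`, `LebesgueDifferentiation`, `ergAvg`, `JointConvergence` are in
`Pool.Agent.Q68.LD.Defs`.
-/

open MeasureTheory
open scoped ENNReal

namespace Pool.Agent.Results.MP_894476_an.DifferentiationSuffices

open Q68.LD

/-- Positive answer to Q1, and its extension to integrable functions with an integrable ergodic
maximal function `sup_k |A_k f|`. -/
theorem result {X : Type*} [MetricSpace X] [MeasurableSpace X] [BorelSpace X] (μ : Measure X)
    [IsProbabilityMeasure μ] (hμ : LebesgueDifferentiation μ) (T : X → X)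
    (hT : MeasurePreserving T μ μ) :
    (∀ (p : ℝ≥0∞), 1 < p → ∀ f : X → ℝ, MemLp f p μ → ∀ᵐ x ∂μ, JointConvergence μ T f x) ∧
    (∀ f : X → ℝ, Integrable f μ →
      ∫⁻ x, (⨆ k : ℕ, ENNReal.ofReal |ergAvg T k f x|) ∂μ < ∞ →
      ∀ᵐ x ∂μ, JointConvergence μ T f x) :=
  ⟨fun _ hp _ hf => joint_of_memLp hμ hT hp hf, fun _ hf hM => joint_of_maximal hμ hT hf hM⟩

end Pool.Agent.Results.MP_894476_an.DifferentiationSuffices
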